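import Pool.Agent.CT.Problem
import Pool.Agent.CT.Fin90

set_option autoImplicit false

/-! # Symmetry-compatible convexification of plane tilings -/

namespace Pool.Agent.Results.MP_4c778f_co.SymmetricConvexification

open Set Pool.Agent.CT

/-- Every tiling of the plane by closed topological disks, any two of them with empty or connected
intersection, and without singular points, is mapped by a homeomorphism `h` of the plane onto a
tiling by convex tiles in such a way that `h ∘ s ∘ h⁻¹` is a symmetry of the new tiling for every
symmetry `s` of the old one. -/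
theorem result : ∀ T : Set (Set ℂ), IsTiling T → N1 T → N2 T → (∀ P, ¬ Singular T P) →
    ∃ (C : Set (Set ℂ)) (h : ℂ ≃ₜ ℂ), IsTiling C ∧ (∀ c ∈ C, Convex ℝ c) ∧
      (fun t => h '' t) '' T = C ∧
      ∀ s : ℂ ≃ᵢ ℂ, IsSymmetry T s → ∃ s' : ℂ ≃ᵢ ℂ, IsSymmetry C s' ∧ ∀ z, h (s z) = s' (h z) :=
  problem_of_main Fin90.main_final

end Pool.Agent.Results.MP_4c778f_co.SymmetricConvexification
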